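import Pool.Agent.J4H46.TR.PullQ

/-!
# The Tate conjecture at all primes for 100% of the pullbacks of EVERY rational elliptic surface with a section
# of order two, over number fields

Let `k` be a number field with ring of integers `O`, and let `E₀ : y² = x (x² + a x + b)` be a rational elliptic
surface over `k(s)` with a section of order two: `a`, `b` are polynomials over `O` of degrees at most `2` and `4`
(every such surface has an equation of this form), and neither `b` nor `d = a² - 4 b` is a constant times a square
(`RatBase2`; this only excludes the surfaces for which `E₀` or the isogenous curve has more than one point of order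
two over the algebraic closure). Nothing is assumed on the points of `E₀` (over the algebraic closure the rank is
four if there are eight bad fibres) or on the places of bad reduction.

For polynomials `q`, `r` over `O` of degree at most `n` let `X` be the elliptic surface over the projective line
whose generic fibre is the pullback `E` of `E₀` by `s = q(t) / r(t)`. It is simply connected, and its geometric genus
tends to infinity with `n` (it is `n - 1` if the eight fibres are semistable).

Let `k'` be an extension of `k` of finite degree over which the finite places of bad reduction are rational, i.e.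
`b d` is a product of linear polynomials. The forms over `k'` (`FormQ`) are the polynomials `q - ξ r` for the roots
`ξ` of `b d` in `k'`, and `r` if infinity is a bad place (not both `b` and `d` have degree 4) and `r` is not `1`.
Call `(q, r)` good (`Good`) if `q`, `r` are coprime, the forms are irreducible over `k'` of degree `n`, and the
following holds for ALL the number fields `L` which contain `k'` and satisfy one of the conditions (`Allowed`)

(A) `L` is contained in a normal extension `M` of `k'` (finite or not) over which none of the forms splits into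
linear factors;
(B) the Galois groups over `k'` of the elements of `L` are solvable (for example `L = k'`);
(C) the degree of `L` over `k'` is less than `n`.

For a set of primes `v` of `L` of positive lower density (`PosOver`) the following holds (`GoodQ`). The base and the
map have good reduction at `v`: the reductions of `a`, `b` have the same properties, with the same degrees, and there
is exactly one closed point above each bad place of the reduction. Let `κ` be the residue field. Over all the finite
extensions of `κ` of degree prime to `n`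

* the Tate conjecture for divisors at the prime 2 holds for the reduction `X_v` (`TateQ`);
* if the group of the points over `κ'(t)`, `κ'` a separable closure of `κ`, is finitely generated (Lang-Neron), then
  the pullback of the group of the points of `E₀` has in the group of the points of `E` a finite index which is odd
  (`PointsIdxQ`).

Theorem. Let `n ≥ 5` be prime to six.

(1) (Congruences.) For every `η > 0` there is an ideal `M ≠ 0` of `O` (with finite quotient) and a set of residue
classes modulo `M` of pairs `(q, r)` over `O` of degree at most `n`, with proportion at least `1 - η` among all the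
residue classes, such that EVERY pair over `O` in one of these residue classes is good.

(2) (100%.) If `B 0`, `B 1`, ... is a sequence of nonempty finite sets of pairs over `O` which is equidistributed
modulo each nonzero ideal of `O` (for example boxes), then the proportion of the good pairs in `B i` tends to `1`.

The Tate conjecture over `L`. It is enough to prove it over a finite extension. Replace `L` by a finite extension
whose degree has only the prime divisors 2 and 3 over which the components of the bad fibres and the points of `E₀`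
over the algebraic closure are rational (the lattice of the points is the dual of `D₄` in the case of eight bad
fibres, and the order of its group of automorphisms has only these prime divisors; see (A)). By the theorems of Artin,
Tate and Milne the Tate conjecture for divisors holds for `X_v` over `κ` at all primes different from the
characteristic, and the space of Tate classes has the dimension `2 + ∑ (m_w - 1) + rank E₀`, the same as the rank of
the group of divisors on `X` modulo algebraic equivalence, since the rank of `E₀` does not change under good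
reduction. The specialisation map on the second cohomology is injective. So the Tate conjecture for divisors on `X`
holds over `L`, and over `k`, at ALL primes.

The proof. (I) A sieve over the prime ideals of `O` above which `k'` has a prime of degree one shows that for 100%
of the pairs over `O` the Galois groups over `k'` of the forms are the full symmetric groups. (II) Then some
element of the Galois group of `L` permutes the roots of EACH form in one cycle of length `n` (`all_cyc`): an
action on the roots of one form which is not independent of the other ones is related to one of them by an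
isomorphism of groups, which preserves the cycles of length `n`, because the centralizers of the other permutations
of order `n` are larger. (III) So at a set of primes of positive density there is one closed point above each of the
bad places, and the descent by 2-isogenies over `κ` (`Pool.Agent.J4H46.TQ.mainQ`) can be applied.
-/

set_option autoImplicit false

namespace Pool.Agent.Results.MP_1bad5e_ag.AlmostAllPullbacksAllPrimes

open Polynomial NumberField Filter Topology Pool.Agent.J4H46.TQ Pool.Agent.J4H46.TR
  Pool.Agent.W401.Cheb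
open Pool.Agent.N181.P9 (RatBase2)
open scoped Classical

/-- The polynomial with the coefficients `c`. -/
noncomputable def poly {R : Type} [CommRing R] {r : ℕ} (c : Fin r → R) : R[X] :=
  ∑ j : Fin r, C (c j) * X ^ (j : ℕ)

/-- The pairs of coefficient vectors of polynomials of degree at most `n`. -/
abbrev Pairs (n : ℕ) (R : Type) : Type := (Fin (n + 1) → R) × (Fin (n + 1) → R)

/-- The polynomial over the ring of integers of an extension. -/
noncomputable abbrev up {k : Type} [Field k] (L : Type) [Field L] [Algebra k L] (f : (𝓞 k)[X]) :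
    (𝓞 L)[X] :=
  f.map (algebraMap (𝓞 k) (𝓞 L))

/-- The conclusion over `L`, for the pullback of the base `(a, b)` by `q / r`. -/
def PosOver {k : Type} [Field k] (n : ℕ) (a b q r : (𝓞 k)[X]) (L : Type)
    [Field L] [NumberField L] [Algebra k L] : Prop :=
  ∃ δ : ℝ, 0 < δ ∧ ∀ᶠ N : ℕ in atTop, δ ≤ dens (GoodQ n (up L a) (up L b) (up L q) (up L r)) N

/-- The good pairs. -/
structure Good {k : Type} [Field k] [NumberField k] (k' : Type) [Field k'] [NumberField k']
    [Algebra k k'] (n : ℕ) (a b q r : (𝓞 k)[X]) : Prop where
  cop : IsCoprime (q.map (algebraMap (𝓞 k) k)) (r.map (algebraMap (𝓞 k) k))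
  irr : ∀ f, FormQ (up k' a) (up k' b) (up k' q) (up k' r) f → Irreducible f ∧ f.natDegree = n
  pos : ∀ (L : Type) [Field L] [NumberField L] [Algebra k' L],
    Allowed n (FormQ (up k' a) (up k' b) (up k' q) (up k' r)) L →
      PosOver n (up k' a) (up k' b) (up k' q) (up k' r) L

/-- The pair `y` over `R` is in the residue class `z`. -/
def InClass {R : Type} [CommRing R] {n : ℕ} {M : Ideal R} (y : Pairs n R)
    (z : Pairs n (R ⧸ M)) : Prop :=
  (∀ j, Ideal.Quotient.mk M (y.1 j) = z.1 j) ∧ (∀ j, Ideal.Quotient.mk M (y.2 j) = z.2 j)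

/-- A sequence of finite sets of pairs which is equidistributed modulo each ideal with finite
quotient. -/
def Equidistributed {R : Type} [CommRing R] {n : ℕ} (B : ℕ → Finset (Pairs n R)) : Prop :=
  ∀ M : Ideal R, Finite (R ⧸ M) → ∀ z : Pairs n (R ⧸ M),
    Tendsto (fun i => (((B i).filter (fun y => InClass y z)).card : ℝ) / ((B i).card : ℝ)) atTop
      (𝓝 (1 / (Nat.card (Pairs n (R ⧸ M)) : ℝ)))

/-- The vector of all the coefficients. -/
def toV {n : ℕ} {R : Type} (z : Pairs n R) : Fin (n + 1) ⊕ Fin (n + 1) → R := Sum.elim z.1 z.2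

theorem toV_inj {n : ℕ} {R : Type} : Function.Injective (toV (n := n) (R := R)) := by
  rintro ⟨a, b⟩ ⟨a', b'⟩ h
  exact Prod.ext (funext fun j => congrFun h (Sum.inl j)) (funext fun j => congrFun h (Sum.inr j))

theorem toV_surj {n : ℕ} {R : Type} (y : Fin (n + 1) ⊕ Fin (n + 1) → R) :
    ∃ z : Pairs n R, toV z = y := by
  refine ⟨(fun j => y (Sum.inl j), fun j => y (Sum.inr j)), ?_⟩
  funext j
  rcases j with j | j <;> rfl

theorem inClass_iff {R : Type} [CommRing R] {n : ℕ} {M : Ideal R} (y : Pairs n R)
    (z : Pairs n (R ⧸ M)) :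
    InClass y z ↔ ∀ j, Ideal.Quotient.mk M (toV y j) = toV z j := by
  constructor
  · rintro ⟨h1, h2⟩ (j | j)
    · exact h1 j
    · exact h2 j
  · intro h
    exact ⟨fun j => h (Sum.inl j), fun j => h (Sum.inr j)⟩

theorem good_of {k : Type} [Field k] [NumberField k] (k' : Type) [Field k'] [NumberField k']
    [Algebra k k'] {n : ℕ} (h5 : 5 ≤ n) (h6 : Nat.Coprime n 6) {a b : (𝓞 k)[X]}
    (hB : RatBase2 (a.map (algebraMap (𝓞 k) k)) (b.map (algebraMap (𝓞 k) k)))
    (hs : ((up k' (b * (a ^ 2 - 4 * b))).map (algebraMap (𝓞 k') k')).Splits) {z : Pairs n (𝓞 k)}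
    (h : GenGood n ((b * (a ^ 2 - 4 * b)).map (algebraMap (𝓞 k) (𝓞 k')))
      ((Pool.Agent.Y160.T3.bF (toV z ∘ Sum.inl)).map (algebraMap (𝓞 k) (𝓞 k')))
      ((Pool.Agent.Y160.T3.bF (toV z ∘ Sum.inr)).map (algebraMap (𝓞 k) (𝓞 k')))) :
    Good k' n a b (poly z.1) (poly z.2) := by
  have emap : up k' (b * (a ^ 2 - 4 * b)) = up k' b * ((up k' a) ^ 2 - 4 * up k' b) := by
    unfold up
    rw [Polynomial.map_mul, gQ_map]
  have hG : GenGood n (up k' b * ((up k' a) ^ 2 - 4 * up k' b)) (up k' (poly z.1))
      (up k' (poly z.2)) := by
    rw [← emap]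
    exact h
  rw [emap] at hs
  have hB' : RatBase2 ((up k' a).map (algebraMap (𝓞 k') k'))
      ((up k' b).map (algebraMap (𝓞 k') k')) := by
    unfold up
    rw [Pool.Agent.J4H46.TA.map_map_int, Pool.Agent.J4H46.TA.map_map_int]
    exact hB.map (algebraMap k k')
  refine ⟨?_, ?_, fun L _ _ _ hL => pos_Q h5 h6 hB' hs hG L hL⟩
  · have hc := hG.co
    unfold up at hc
    rw [Pool.Agent.J4H46.TA.map_map_int, Pool.Agent.J4H46.TA.map_map_int] at hc
    exact (isCoprime_map (algebraMap k k')).1 hc
  · rintro f (⟨ξ, hξ, rfl⟩ | ⟨-, -, rfl⟩)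
    · exact (hG.fm ξ hξ).1
    · exact hG.fr.1

/-- The congruences. -/
theorem dens {k : Type} [Field k] [NumberField k] (k' : Type) [Field k'] [NumberField k']
    [Algebra k k'] {n : ℕ} (h5 : 5 ≤ n) (h6 : Nat.Coprime n 6) {a b : (𝓞 k)[X]}
    (hB : RatBase2 (a.map (algebraMap (𝓞 k) k)) (b.map (algebraMap (𝓞 k) k)))
    (hs : ((up k' (b * (a ^ 2 - 4 * b))).map (algebraMap (𝓞 k') k')).Splits) (η : ℝ)
    (hη : 0 < η) :
    ∃ M : Ideal (𝓞 k), Finite (𝓞 k ⧸ M) ∧
      (1 - η) * (Nat.card (𝓞 k ⧸ M) : ℝ) ^ (Fintype.card (Fin (n + 1) ⊕ Fin (n + 1))) ≤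
        (({x : Fin (n + 1) ⊕ Fin (n + 1) → 𝓞 k ⧸ M | ∀ y : Pairs n (𝓞 k),
          (∀ j, Ideal.Quotient.mk M (toV y j) = x j) →
          Good k' n a b (poly y.1) (poly y.2)}.ncard : ℕ) : ℝ) := by
  have hg : b * (a ^ 2 - 4 * b) ≠ 0 := by
    refine mul_ne_zero ?_ ?_
    · rintro rfl
      exact hB.cb 0 1 (by rw [Polynomial.map_zero, C_0, zero_mul])
    · intro h
      apply hB.cd 0 1
      rw [← gQ_map, h, Polynomial.map_zero, C_0, zero_mul]
  obtain ⟨M, hM, h⟩ := dens_pairs k k' (n := n) (by omega) hg η hη
  haveI := hM
  refine ⟨M, hM, h.trans ?_⟩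
  have h5' : ∀ S T : Set (Fin (n + 1) ⊕ Fin (n + 1) → 𝓞 k ⧸ M), S ⊆ T →
      ((S.ncard : ℕ) : ℝ) ≤ ((T.ncard : ℕ) : ℝ) := fun S T h => by
    exact_mod_cast Set.ncard_le_ncard h (Set.toFinite _)
  apply h5'
  intro x hx y hy
  exact good_of k' h5 h6 hB hs (hx (toV y) hy)

theorem result :
    ∀ (k : Type) [Field k] [NumberField k] (a b : (𝓞 k)[X]),
      RatBase2 (a.map (algebraMap (𝓞 k) k)) (b.map (algebraMap (𝓞 k) k)) →
      ∀ (k' : Type) [Field k'] [NumberField k'] [Algebra k k'],
        ((up k' (b * (a ^ 2 - 4 * b))).map (algebraMap (𝓞 k') k')).Splits →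
        ∀ n : ℕ, 5 ≤ n → Nat.Coprime n 6 →
          (∀ η : ℝ, 0 < η → ∃ M : Ideal (𝓞 k), M ≠ ⊥ ∧ Finite (𝓞 k ⧸ M) ∧
            (1 - η) * (Nat.card (Pairs n (𝓞 k ⧸ M)) : ℝ) ≤
              (({z : Pairs n (𝓞 k ⧸ M) | ∀ y : Pairs n (𝓞 k), InClass y z →
                Good k' n a b (poly y.1) (poly y.2)}.ncard : ℕ) : ℝ)) ∧
          (∀ B : ℕ → Finset (Pairs n (𝓞 k)), (∀ i, (B i).Nonempty) → Equidistributed B →
            Tendsto (fun i => (((B i).filter (fun y =>
                Good k' n a b (poly y.1) (poly y.2))).card : ℝ) /
              ((B i).card : ℝ)) atTop (𝓝 1)) := by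
  intro k _ _ a b hB k' _ _ _ hs n h5 h6
  have hcard : ∀ (M : Ideal (𝓞 k)), (Nat.card (Pairs n (𝓞 k ⧸ M)) : ℝ) =
      (Nat.card (𝓞 k ⧸ M) : ℝ) ^ (Fintype.card (Fin (n + 1) ⊕ Fin (n + 1))) := by
    intro M
    rw [Nat.card_congr (Equiv.ofBijective _ ⟨toV_inj (n := n) (R := 𝓞 k ⧸ M), toV_surj⟩),
      Nat.card_fun, Nat.card_eq_fintype_card (α := Fin (n + 1) ⊕ Fin (n + 1))]
    push_cast
    rfl
  refine ⟨?_, ?_⟩
  · intro η hη
    obtain ⟨M, hM, hd⟩ := dens k' h5 h6 hB hs η hη
    haveI := hM
    refine ⟨M, ?_, hM, ?_⟩
    · rintro rfl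
      have : Finite (𝓞 k) := Finite.of_equiv _ (RingEquiv.quotientBot (𝓞 k)).toEquiv
      exact not_finite (𝓞 k)
    rw [hcard]
    refine hd.trans ?_
    rw [← Set.ncard_image_of_injective _ (toV_inj (R := 𝓞 k ⧸ M) (n := n))]
    have h5 : ∀ S T : Set (Fin (n + 1) ⊕ Fin (n + 1) → 𝓞 k ⧸ M), S ⊆ T →
        ((S.ncard : ℕ) : ℝ) ≤ ((T.ncard : ℕ) : ℝ) := fun S T h => by
      exact_mod_cast Set.ncard_le_ncard h (Set.toFinite _)
    apply h5
    intro x hx
    obtain ⟨z, rfl⟩ := toV_surj x
    exact ⟨z, fun y hy => hx y ((inClass_iff y z).1 hy), rfl⟩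
  · intro B hB' heq
    obtain ⟨S, hS⟩ : ∃ S : Set (Fin (n + 1) ⊕ Fin (n + 1) → 𝓞 k),
        S = {x | ∃ z : Pairs n (𝓞 k), toV z = x ∧ Good k' n a b (poly z.1) (poly z.2)} :=
      ⟨_, rfl⟩
    have hSmem : ∀ y : Pairs n (𝓞 k), toV y ∈ S ↔ Good k' n a b (poly y.1) (poly y.2) := by
      intro y
      rw [hS]
      constructor
      · rintro ⟨z, hz, hg⟩
        rwa [toV_inj hz] at hg
      · intro hg
        exact ⟨y, rfl, hg⟩
    have key : ∀ η : ℝ, 0 < η → ∃ M : Ideal (𝓞 k), Finite (𝓞 k ⧸ M) ∧
        (1 - η) * (Nat.card (𝓞 k ⧸ M) : ℝ) ^ (Fintype.card (Fin (n + 1) ⊕ Fin (n + 1))) ≤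
          (({x : Fin (n + 1) ⊕ Fin (n + 1) → 𝓞 k ⧸ M | ∀ y : Fin (n + 1) ⊕ Fin (n + 1) → 𝓞 k,
            (∀ j, Ideal.Quotient.mk M (y j) = x j) → y ∈ S}).ncard : ℝ) := by
      intro η hη
      obtain ⟨M, hM, hd⟩ := dens k' h5 h6 hB hs η hη
      haveI := hM
      refine ⟨M, hM, hd.trans ?_⟩
      have h5 : ∀ S T : Set (Fin (n + 1) ⊕ Fin (n + 1) → 𝓞 k ⧸ M), S ⊆ T →
          ((S.ncard : ℕ) : ℝ) ≤ ((T.ncard : ℕ) : ℝ) := fun S T h => by
        exact_mod_cast Set.ncard_le_ncard h (Set.toFinite _)
      apply h5
      intro x hx y hy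
      obtain ⟨z, rfl⟩ := toV_surj y
      rw [hSmem]
      exact hx z hy
    have hinj : Function.Injective (toV (R := 𝓞 k) (n := n)) := toV_inj
    have hc : ∀ (i : ℕ) (P : (Fin (n + 1) ⊕ Fin (n + 1) → 𝓞 k) → Prop) [DecidablePred P]
        (Q : Pairs n (𝓞 k) → Prop) [DecidablePred Q], (∀ y, P (toV y) ↔ Q y) →
        (((B i).map ⟨toV, hinj⟩).filter P).card = ((B i).filter Q).card := by
      intro i P _ Q _ hPQ
      rw [Finset.filter_map, Finset.card_map]
      congr 1
      ext y
      rw [Finset.mem_filter, Finset.mem_filter]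
      exact and_congr_right fun _ => hPQ y
    have hlim := Pool.Agent.X243.Gen.tendsto_of_dens S key (fun i => (B i).map ⟨toV, hinj⟩)
      (fun i => (hB' i).map) (by
        intro M hM x
        obtain ⟨z, rfl⟩ := toV_surj x
        have h1 := heq M hM z
        rw [hcard] at h1
        refine h1.congr fun i => ?_
        rw [Finset.card_map, hc i _ (fun y => InClass y z) (fun y => (inClass_iff y z).symm)])
    refine hlim.congr fun i => ?_
    rw [Finset.card_map, hc i _ (fun y => Good k' n a b (poly y.1) (poly y.2)) hSmem]

end Pool.Agent.Results.MP_1bad5e_ag.AlmostAllPullbacksAllPrimes
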