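import Pool.Agent.J4H46.TS.Pos

/-!
# The Tate conjecture at all primes for infinite towers of pullbacks of EVERY rational elliptic surface with a
# section of order two, for 100% of the base maps, over number fields

Let `k` be a number field with ring of integers `O`, and let `E₀ : y² = x (x² + a x + b)` be a rational elliptic
surface over `k(s)` with a section of order two: `a`, `b` are polynomials over `O` of degrees at most `2` and `4`
(every such surface has an equation of this form), and neither `b` nor `d = a² - 4 b` is a constant times a square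
(`RatBase2`; this only excludes the surfaces for which `E₀` or the isogenous curve has more than one point of order
two over the algebraic closure).

For polynomials `q`, `r` over `O` of degree at most `n` and `m ≥ 1` let `X_m` be the elliptic surface over the
projective line whose generic fibre is the pullback of `E₀` by `s = (q / r)(t ^ m)`, a map of degree `n m`. These
surfaces form towers: `X_m` is mapped to `X_{m'}` if `m'` divides `m`. They are simply connected, and their geometric
genera tend to infinity with `m` (the genus of `X_m` is `n m - 1` if `E₀` has eight singular fibres, all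
semistable). For `m > 1` the maps `(q / r)(t ^ m)` form a thin set among the maps of degree `n m`, so the theorems on
100% of all the maps of degree `n m` say nothing about the surfaces `X_m`.

Let `S` be a finite set of prime numbers `p ≥ 5` which are larger than the number of the places of bad reduction of
`E₀` over the algebraic closure (`badPlaces`, at most `8`; so all the primes `p ≥ 11` are allowed). Let `k'` be an
extension of `k` of finite degree over which the finite places of bad reduction are rational, i.e. `b d` is a product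
of linear polynomials, and which contains the `p`-th roots of unity for the `p` in `S`. The forms of a map `Q / R` over
`k'` (`FormQ`) are the polynomials `Q - ξ R` for the roots `ξ` of `b d` in `k'`, and `R` if infinity is a bad place
(not both `b` and `d` have degree 4) and `R` is not `1`.

Call `(q, r)` good (`Good`) if `q`, `r` are coprime and the following two properties hold, for ALL the numbers `m`
all of whose prime factors are in `S`:

* the forms of `(q / r)(t ^ m)` are irreducible over `k'` of degree `n m`;
* for a set of primes `v` of `k'` of positive lower density, THE SAME for all `m`, `GoodQ` holds.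

`GoodQ` (for `X_m`): The base and the map have good reduction at `v`: the reductions of `a`, `b` have the same
properties, with the same degrees, and there is exactly one closed point above each bad place of the reduction. Let
`κ` be the residue field. Over all the finite extensions of `κ` of degree prime to `n m`

* the Tate conjecture for divisors at the prime 2 holds for the reduction of `X_m` (`TateQ`);
* if the group of the points over `κ'(t)`, `κ'` a separable closure of `κ`, is finitely generated (Lang-Neron), then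
  the pullback of the group of the points of `E₀` has in the group of the points of the pullback a finite index which
  is odd (`PointsIdxQ`).

Theorem. Let `n ≥ 5` be prime to six.

(1) (Congruences.) For every `η > 0` there is an ideal `M ≠ 0` of `O` (with finite quotient) and a set of residue
classes modulo `M` of pairs `(q, r)` over `O` of degree at most `n`, with proportion at least `1 - η` among all the
residue classes, such that EVERY pair over `O` in one of these residue classes is good.

(2) (100%.) If `B 0`, `B 1`, ... is a sequence of nonempty finite sets of pairs over `O` which is equidistributed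
modulo each nonzero ideal of `O` (for example boxes), then the proportion of the good pairs in `B i` tends to `1`.

The Tate conjecture over `k'` and `k`. It is enough to prove it over a finite extension. As in
`MP_1bad5e_ag.AlmostAllPullbacksAllPrimes`: by the theorems of Artin, Tate and Milne the Tate conjecture for divisors
holds for the reduction over `κ` at all primes different from the characteristic, and the space of Tate classes
has the dimension `2 + ∑ (m_w - 1) + rank E₀` (after an extension of `k'` whose degree has only the prime divisors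
2 and 3, over which the components of the bad fibres and the points of `E₀` over the algebraic closure are rational;
the positive density is preserved, since the Frobenius element which is used can be raised to a power prime to
`n m`), the same as the rank of the group of divisors on `X_m` modulo algebraic equivalence, since the rank of `E₀`
does not change under good reduction. The specialisation map on the second cohomology is injective. So the Tate
conjecture for divisors on `X_m` holds over `k` at ALL primes, for all these `m`.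

The proof. (I) A sieve over the prime ideals of `O` above which `k'` has a prime `v` of degree one shows that for 100%
of the pairs over `O` the Galois groups over `k'` of the forms `f` are the full symmetric groups and that `f(0)`
divided by the leading coefficient of `f` is not a `p`-th power in `k'`, for all the forms and all `p` in `S`:
at each `v` a positive proportion of the pairs has this property modulo `v`, since the residue field contains the
`p`-th roots of unity. (II) Some element of the Galois group of `k'` permutes the roots of EACH form in one cycle of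
length `n` and moves the `p`-th roots of all these constants: the Galois group of the radicals is abelian, the
symmetric groups are almost perfect (`kill`), and there are fewer forms than `p`. (III) At the primes with
this Frobenius element the reduction `f` of each form is irreducible and `f(0)` divided by the leading coefficient is
not a `p`-th power; so a root of `f` is not a `p`-th power in the field which it generates (norm), and `f(t ^ m)` is
irreducible for all `m` (`expand_irr`). So there is one closed point of `X_m` above each of the bad places, and the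
descent by 2-isogenies over `κ` (`Pool.Agent.J4H46.TQ.mainQ`) can be applied.
-/

set_option autoImplicit false

namespace Pool.Agent.Results.MP_1bad5e_ag.AlmostAllTowers

open Polynomial NumberField IsDedekindDomain Filter Topology Pool.Agent.J4H46.TQ
  Pool.Agent.J4H46.TR Pool.Agent.J4H46.TS Pool.Agent.W401.Cheb
open Pool.Agent.N181.P9 (RatBase2)
open scoped Classical

/-- The polynomial with the coefficients `c`. -/
noncomputable def poly {R : Type} [CommRing R] {r : ℕ} (c : Fin r → R) : R[X] :=
  ∑ j : Fin r, C (c j) * X ^ (j : ℕ)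

/-- The pairs of coefficient vectors of polynomials of degree at most `n`. -/
abbrev Pairs (n : ℕ) (R : Type) : Type := (Fin (n + 1) → R) × (Fin (n + 1) → R)

/-- The polynomial over the ring of integers of an extension. -/
noncomputable abbrev up {k : Type} [Field k] (L : Type) [Field L] [Algebra k L] (f : (𝓞 k)[X]) :
    (𝓞 L)[X] :=
  f.map (algebraMap (𝓞 k) (𝓞 L))

/-- All the prime factors of `m ≥ 1` are in `S`. -/
def Smooth (S : Finset ℕ) (m : ℕ) : Prop := m ≠ 0 ∧ ∀ p : ℕ, p.Prime → p ∣ m → p ∈ S

/-- The good pairs: all the maps `(q / r)(t ^ m)`, at the same primes. -/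
structure Good {k : Type} [Field k] [NumberField k] (k' : Type) [Field k'] [NumberField k']
    [Algebra k k'] (n : ℕ) (S : Finset ℕ) (a b q r : (𝓞 k)[X]) : Prop where
  cop : IsCoprime (q.map (algebraMap (𝓞 k) k)) (r.map (algebraMap (𝓞 k) k))
  irr : ∀ m : ℕ, Smooth S m →
    ∀ f, FormQ (up k' a) (up k' b) (expand (𝓞 k') m (up k' q)) (expand (𝓞 k') m (up k' r)) f →
      Irreducible f ∧ f.natDegree = n * m
  pos : ∃ δ : ℝ, 0 < δ ∧ ∀ᶠ N : ℕ in atTop,
    δ ≤ dens (fun v : HeightOneSpectrum (𝓞 k') => ∀ m : ℕ, Smooth S m →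
      GoodQ (n * m) (up k' a) (up k' b) (expand (𝓞 k') m (up k' q)) (expand (𝓞 k') m (up k' r)) v)
      N

/-- The pair `y` over `R` is in the residue class `z`. -/
def InClass {R : Type} [CommRing R] {n : ℕ} {M : Ideal R} (y : Pairs n R)
    (z : Pairs n (R ⧸ M)) : Prop :=
  (∀ j, Ideal.Quotient.mk M (y.1 j) = z.1 j) ∧ (∀ j, Ideal.Quotient.mk M (y.2 j) = z.2 j)

/-- A sequence of finite sets of pairs which is equidistributed modulo each ideal with finite
quotient. -/
def Equidistributed {R : Type} [CommRing R] {n : ℕ} (B : ℕ → Finset (Pairs n R)) : Prop :=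
  ∀ M : Ideal R, Finite (R ⧸ M) → ∀ z : Pairs n (R ⧸ M),
    Tendsto (fun i => (((B i).filter (fun y => InClass y z)).card : ℝ) / ((B i).card : ℝ)) atTop
      (𝓝 (1 / (Nat.card (Pairs n (R ⧸ M)) : ℝ)))

/-- The vector of all the coefficients. -/
def toV {n : ℕ} {R : Type} (z : Pairs n R) : Fin (n + 1) ⊕ Fin (n + 1) → R := Sum.elim z.1 z.2

theorem toV_inj {n : ℕ} {R : Type} : Function.Injective (toV (n := n) (R := R)) := by
  rintro ⟨a, b⟩ ⟨a', b'⟩ h
  exact Prod.ext (funext fun j => congrFun h (Sum.inl j)) (funext fun j => congrFun h (Sum.inr j))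

theorem toV_surj {n : ℕ} {R : Type} (y : Fin (n + 1) ⊕ Fin (n + 1) → R) :
    ∃ z : Pairs n R, toV z = y := by
  refine ⟨(fun j => y (Sum.inl j), fun j => y (Sum.inr j)), ?_⟩
  funext j
  rcases j with j | j <;> rfl

theorem inClass_iff {R : Type} [CommRing R] {n : ℕ} {M : Ideal R} (y : Pairs n R)
    (z : Pairs n (R ⧸ M)) :
    InClass y z ↔ ∀ j, Ideal.Quotient.mk M (toV y j) = toV z j := by
  constructor
  · rintro ⟨h1, h2⟩ (j | j)
    · exact h1 j
    · exact h2 j
  · intro h
    exact ⟨fun j => h (Sum.inl j), fun j => h (Sum.inr j)⟩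

theorem good_of {k : Type} [Field k] [NumberField k] (k' : Type) [Field k'] [NumberField k']
    [Algebra k k'] {n : ℕ} (h5 : 5 ≤ n) (h6 : Nat.Coprime n 6) {S : Finset ℕ} {a b : (𝓞 k)[X]}
    (hS : ∀ p ∈ S, p.Prime ∧ 5 ≤ p ∧ badPlaces (up k' a) (up k' b) < p)
    (hζ : ∀ p ∈ S, ∃ ζ : k', IsPrimitiveRoot ζ p)
    (hB : RatBase2 (a.map (algebraMap (𝓞 k) k)) (b.map (algebraMap (𝓞 k) k)))
    (hs : ((up k' (b * (a ^ 2 - 4 * b))).map (algebraMap (𝓞 k') k')).Splits) {z : Pairs n (𝓞 k)}
    (h : GenK n S ((b * (a ^ 2 - 4 * b)).map (algebraMap (𝓞 k) (𝓞 k')))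
      ((Pool.Agent.Y160.T3.bF (toV z ∘ Sum.inl)).map (algebraMap (𝓞 k) (𝓞 k')))
      ((Pool.Agent.Y160.T3.bF (toV z ∘ Sum.inr)).map (algebraMap (𝓞 k) (𝓞 k')))) :
    Good k' n S a b (poly z.1) (poly z.2) := by
  have hn : Odd n := by
    rw [← Nat.not_even_iff_odd, even_iff_two_dvd]
    exact Pool.Agent.N181.P9.two_of_six h6 (dvd_refl n)
  have emap : up k' (b * (a ^ 2 - 4 * b)) = up k' b * ((up k' a) ^ 2 - 4 * up k' b) := by
    unfold up
    rw [Polynomial.map_mul, gQ_map]
  have hG : GenK n S (up k' b * ((up k' a) ^ 2 - 4 * up k' b)) (up k' (poly z.1))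
      (up k' (poly z.2)) := by
    rw [← emap]
    exact h
  rw [emap] at hs
  have hB' : RatBase2 ((up k' a).map (algebraMap (𝓞 k') k'))
      ((up k' b).map (algebraMap (𝓞 k') k')) := by
    unfold up
    rw [Pool.Agent.J4H46.TA.map_map_int, Pool.Agent.J4H46.TA.map_map_int]
    exact hB.map (algebraMap k k')
  refine ⟨?_, fun m hm f hf => ?_, ?_⟩
  · have hc := hG.gen.co
    unfold up at hc
    rw [Pool.Agent.J4H46.TA.map_map_int, Pool.Agent.J4H46.TA.map_map_int] at hc
    exact (isCoprime_map (algebraMap k k')).1 hc
  · refine irr_tower hn hG ?_ hm.2 f hf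
    rw [← Nat.not_even_iff_odd, even_iff_two_dvd]
    exact Pool.Agent.N181.P9.two_of_six (six_of (fun p hp => (hS p hp).2.1) hm.2) (dvd_refl m)
  · obtain ⟨δ, hδ, h1⟩ := pos_tower h5 h6 hS hζ ⟨hB', hs⟩ hG
    refine ⟨δ, hδ, h1.mono fun N hN => ?_⟩
    have e : (fun v : HeightOneSpectrum (𝓞 k') => ∀ m : ℕ, Smooth S m →
        GoodQ (n * m) (up k' a) (up k' b) (expand (𝓞 k') m (up k' (poly z.1)))
          (expand (𝓞 k') m (up k' (poly z.2))) v) =
        (fun v => ∀ m : ℕ, m ≠ 0 → (∀ p : ℕ, p.Prime → p ∣ m → p ∈ S) →
        GoodQ (n * m) (up k' a) (up k' b) (expand (𝓞 k') m (up k' (poly z.1)))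
          (expand (𝓞 k') m (up k' (poly z.2))) v) := by
      funext v
      exact propext ⟨fun h m h1 h2 => h m ⟨h1, h2⟩, fun h m hm => h m hm.1 hm.2⟩
    rw [e]
    exact hN

/-- The congruences. -/
theorem congr {k : Type} [Field k] [NumberField k] (k' : Type) [Field k'] [NumberField k']
    [Algebra k k'] {n : ℕ} (h5 : 5 ≤ n) (h6 : Nat.Coprime n 6) {S : Finset ℕ} {a b : (𝓞 k)[X]}
    (hS : ∀ p ∈ S, p.Prime ∧ 5 ≤ p ∧ badPlaces (up k' a) (up k' b) < p)
    (hζ : ∀ p ∈ S, ∃ ζ : k', IsPrimitiveRoot ζ p)
    (hB : RatBase2 (a.map (algebraMap (𝓞 k) k)) (b.map (algebraMap (𝓞 k) k)))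
    (hs : ((up k' (b * (a ^ 2 - 4 * b))).map (algebraMap (𝓞 k') k')).Splits) (η : ℝ)
    (hη : 0 < η) :
    ∃ M : Ideal (𝓞 k), Finite (𝓞 k ⧸ M) ∧
      (1 - η) * (Nat.card (𝓞 k ⧸ M) : ℝ) ^ (Fintype.card (Fin (n + 1) ⊕ Fin (n + 1))) ≤
        (({x : Fin (n + 1) ⊕ Fin (n + 1) → 𝓞 k ⧸ M | ∀ y : Pairs n (𝓞 k),
          (∀ j, Ideal.Quotient.mk M (toV y j) = x j) →
          Good k' n S a b (poly y.1) (poly y.2)}.ncard : ℕ) : ℝ) := by
  have hg : b * (a ^ 2 - 4 * b) ≠ 0 := by
    refine mul_ne_zero ?_ ?_
    · rintro rfl
      exact hB.cb 0 1 (by rw [Polynomial.map_zero, C_0, zero_mul])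
    · intro h
      apply hB.cd 0 1
      rw [← gQ_map, h, Polynomial.map_zero, C_0, zero_mul]
  obtain ⟨M, hM, h⟩ := Pool.Agent.J4H46.TS.dens_pairs k k' (S := S) (n := n) (by omega) (fun p hp => (hS p hp).1) hζ
    hg η hη
  haveI := hM
  refine ⟨M, hM, h.trans ?_⟩
  have h5' : ∀ S T : Set (Fin (n + 1) ⊕ Fin (n + 1) → 𝓞 k ⧸ M), S ⊆ T →
      ((S.ncard : ℕ) : ℝ) ≤ ((T.ncard : ℕ) : ℝ) := fun S T h => by
    exact_mod_cast Set.ncard_le_ncard h (Set.toFinite _)
  apply h5'
  intro x hx y hy
  exact good_of k' h5 h6 hS hζ hB hs (hx (toV y) hy)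

theorem result :
    ∀ (k : Type) [Field k] [NumberField k] (a b : (𝓞 k)[X]),
      RatBase2 (a.map (algebraMap (𝓞 k) k)) (b.map (algebraMap (𝓞 k) k)) →
      ∀ (k' : Type) [Field k'] [NumberField k'] [Algebra k k'],
        ((up k' (b * (a ^ 2 - 4 * b))).map (algebraMap (𝓞 k') k')).Splits →
        badPlaces (up k' a) (up k' b) ≤ 8 ∧
        ∀ n : ℕ, 5 ≤ n → Nat.Coprime n 6 →
        ∀ S : Finset ℕ, (∀ p ∈ S, p.Prime ∧ 5 ≤ p ∧ badPlaces (up k' a) (up k' b) < p) →
          (∀ p ∈ S, ∃ ζ : k', IsPrimitiveRoot ζ p) →
          (∀ η : ℝ, 0 < η → ∃ M : Ideal (𝓞 k), M ≠ ⊥ ∧ Finite (𝓞 k ⧸ M) ∧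
            (1 - η) * (Nat.card (Pairs n (𝓞 k ⧸ M)) : ℝ) ≤
              (({z : Pairs n (𝓞 k ⧸ M) | ∀ y : Pairs n (𝓞 k), InClass y z →
                Good k' n S a b (poly y.1) (poly y.2)}.ncard : ℕ) : ℝ)) ∧
          (∀ B : ℕ → Finset (Pairs n (𝓞 k)), (∀ i, (B i).Nonempty) → Equidistributed B →
            Tendsto (fun i => (((B i).filter (fun y =>
                Good k' n S a b (poly y.1) (poly y.2))).card : ℝ) /
              ((B i).card : ℝ)) atTop (𝓝 1)) := by
  intro k _ _ a b hB k' _ _ _ hs
  refine ⟨badPlaces_le ⟨?_, ?_⟩, ?_⟩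
  · unfold up
    rw [Pool.Agent.J4H46.TA.map_map_int, Pool.Agent.J4H46.TA.map_map_int]
    exact hB.map (algebraMap k k')
  · have emap : up k' (b * (a ^ 2 - 4 * b)) = up k' b * ((up k' a) ^ 2 - 4 * up k' b) := by
      unfold up
      rw [Polynomial.map_mul, gQ_map]
    rw [← emap]
    exact hs
  intro n h5 h6 S hS hζ
  have hcard : ∀ (M : Ideal (𝓞 k)), (Nat.card (Pairs n (𝓞 k ⧸ M)) : ℝ) =
      (Nat.card (𝓞 k ⧸ M) : ℝ) ^ (Fintype.card (Fin (n + 1) ⊕ Fin (n + 1))) := by
    intro M
    rw [Nat.card_congr (Equiv.ofBijective _ ⟨toV_inj (n := n) (R := 𝓞 k ⧸ M), toV_surj⟩),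
      Nat.card_fun, Nat.card_eq_fintype_card (α := Fin (n + 1) ⊕ Fin (n + 1))]
    push_cast
    rfl
  refine ⟨?_, ?_⟩
  · intro η hη
    obtain ⟨M, hM, hd⟩ := congr k' h5 h6 hS hζ hB hs η hη
    haveI := hM
    refine ⟨M, ?_, hM, ?_⟩
    · rintro rfl
      have : Finite (𝓞 k) := Finite.of_equiv _ (RingEquiv.quotientBot (𝓞 k)).toEquiv
      exact not_finite (𝓞 k)
    rw [hcard]
    refine hd.trans ?_
    rw [← Set.ncard_image_of_injective _ (toV_inj (R := 𝓞 k ⧸ M) (n := n))]
    have h5 : ∀ S T : Set (Fin (n + 1) ⊕ Fin (n + 1) → 𝓞 k ⧸ M), S ⊆ T →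
        ((S.ncard : ℕ) : ℝ) ≤ ((T.ncard : ℕ) : ℝ) := fun S T h => by
      exact_mod_cast Set.ncard_le_ncard h (Set.toFinite _)
    apply h5
    intro x hx
    obtain ⟨z, rfl⟩ := toV_surj x
    exact ⟨z, fun y hy => hx y ((inClass_iff y z).1 hy), rfl⟩
  · intro B hB' heq
    obtain ⟨W, hW⟩ : ∃ W : Set (Fin (n + 1) ⊕ Fin (n + 1) → 𝓞 k),
        W = {x | ∃ z : Pairs n (𝓞 k), toV z = x ∧ Good k' n S a b (poly z.1) (poly z.2)} :=
      ⟨_, rfl⟩
    have hWmem : ∀ y : Pairs n (𝓞 k), toV y ∈ W ↔ Good k' n S a b (poly y.1) (poly y.2) := by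
      intro y
      rw [hW]
      constructor
      · rintro ⟨z, hz, hg⟩
        rwa [toV_inj hz] at hg
      · intro hg
        exact ⟨y, rfl, hg⟩
    have key : ∀ η : ℝ, 0 < η → ∃ M : Ideal (𝓞 k), Finite (𝓞 k ⧸ M) ∧
        (1 - η) * (Nat.card (𝓞 k ⧸ M) : ℝ) ^ (Fintype.card (Fin (n + 1) ⊕ Fin (n + 1))) ≤
          (({x : Fin (n + 1) ⊕ Fin (n + 1) → 𝓞 k ⧸ M | ∀ y : Fin (n + 1) ⊕ Fin (n + 1) → 𝓞 k,
            (∀ j, Ideal.Quotient.mk M (y j) = x j) → y ∈ W}).ncard : ℝ) := by
      intro η hη
      obtain ⟨M, hM, hd⟩ := congr k' h5 h6 hS hζ hB hs η hη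
      haveI := hM
      refine ⟨M, hM, hd.trans ?_⟩
      have h5 : ∀ S T : Set (Fin (n + 1) ⊕ Fin (n + 1) → 𝓞 k ⧸ M), S ⊆ T →
          ((S.ncard : ℕ) : ℝ) ≤ ((T.ncard : ℕ) : ℝ) := fun S T h => by
        exact_mod_cast Set.ncard_le_ncard h (Set.toFinite _)
      apply h5
      intro x hx y hy
      obtain ⟨z, rfl⟩ := toV_surj y
      rw [hWmem]
      exact hx z hy
    have hinj : Function.Injective (toV (R := 𝓞 k) (n := n)) := toV_inj
    have hc : ∀ (i : ℕ) (P : (Fin (n + 1) ⊕ Fin (n + 1) → 𝓞 k) → Prop) [DecidablePred P]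
        (Q : Pairs n (𝓞 k) → Prop) [DecidablePred Q], (∀ y, P (toV y) ↔ Q y) →
        (((B i).map ⟨toV, hinj⟩).filter P).card = ((B i).filter Q).card := by
      intro i P _ Q _ hPQ
      rw [Finset.filter_map, Finset.card_map]
      congr 1
      ext y
      rw [Finset.mem_filter, Finset.mem_filter]
      exact and_congr_right fun _ => hPQ y
    have hlim := Pool.Agent.X243.Gen.tendsto_of_dens W key (fun i => (B i).map ⟨toV, hinj⟩)
      (fun i => (hB' i).map) (by
        intro M hM x
        obtain ⟨z, rfl⟩ := toV_surj x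
        have h1 := heq M hM z
        rw [hcard] at h1
        refine h1.congr fun i => ?_
        rw [Finset.card_map, hc i _ (fun y => InClass y z) (fun y => (inClass_iff y z).symm)])
    refine hlim.congr fun i => ?_
    rw [Finset.card_map, hc i _ (fun y => Good k' n S a b (poly y.1) (poly y.2)) hWmem]

end Pool.Agent.Results.MP_1bad5e_ag.AlmostAllTowers
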