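import Pool.Agent.J4H46.TQ.ExaQ

/-!
# The Tate conjecture at all primes, over number fields, for the pullbacks of the rational elliptic surfaces
# with a section of order two by rational functions of prime degree

Let `k` be a number field with ring of integers `O`, and `E₀ : y² = x (x² + a x + b)` an elliptic curve over
`k(s)`, `a`, `b` polynomials over `O` of degree at most two and four: a rational elliptic surface with a section
of order two; each such surface has an equation of this form. We assume that `b` and `d = a² - 4 b` are not
constants times squares, and that the finite places of bad reduction are rational (`BaseQ`). In general there are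
four fibres of type `I₂` over the zeros of `b` and four of type `I₁` over the zeros of `d`, and over the algebraic
closure the rank of `E₀` is four.

Let `s = q(t) / r(t)` be a map of degree `n` prime to six (`MapDeg`), and let `X` be the elliptic surface over the
projective line with generic fibre the pullback `E` of `E₀`. It is geometrically simply connected. In the
semistable case its geometric genus is `n - 1`. The forms of the bad points (`FormQ`) are `q - ξ r` for the
roots `ξ` of `b d`, and `r` if infinity is a bad point (`InfQ`: not both `b` and `d` have degree four) and `r` is
not `1`.

Theorem. Suppose one of the following.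

(1) Some automorphism `σ` in the absolute Galois group of `k` permutes, for each bad point, the points above it
in one cycle (`OneAt`; the point may be ramified).

(2) `n ≥ 11` is a prime number, and each form is irreducible over `k` of degree `n` (or a constant times the
`n`-th power of a linear polynomial).

Then for a set of primes `v` of `k` of positive lower density the following holds (`GoodQ`). The base and the map
have good reduction at `v`: the reductions of `a`, `b` have the same properties, with the same degrees, and
there is exactly one closed point above each bad place of the reduction. Let `κ` be the residue field. Over all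
the finite extensions `L` of `κ` of degree prime to `n`, in particular over `κ`,

* the Tate conjecture for divisors at the prime 2 holds for the reduction `X_v` (`TateQ`);
* if the group of the points over `L'(t)`, `L'` a separable closure, is finitely generated (Lang-Neron), then the
  pullback of the group `E₀(L(s))` has in `E(L(t))` a finite index which is odd (`PointsIdxQ`).

(3) Towers. Let `p ≥ 5` be a prime number which is larger than the number of the bad points different from `0` and
`∞`, none of which is a `p`-th power in `k`. Then the primes `v` for which this is true for ALL the maps
`s = t ^ (p ^ j)`, `j ≥ 0`, have positive lower density.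

(4) For example this is so for `k = ℚ`, `E : y² = x (x² + 2 (s² + 3 s - 6) x - 2 (s + 6) (s - 3))`, where
`s = t ^ (p ^ j)`, for all the prime numbers `p ≥ 7`. Here `(1, 5)` is a section of infinite order, and `0` and
`∞` are bad points.

The theorem in `Pool.Agent.J4H46.TQ.Main` on the points (`PointsIdxQ`) is true over every field `κ` of
characteristic different from two; it is new for surfaces with a section of order two, where the two descents by
the isogenies of degree two have to be combined.

The Tate conjecture over `k`. Replace `k` by a finite extension whose degree has only the prime divisors 2 and 3 over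
which the components of the bad fibres and the points of `E₀` over the algebraic closure are rational (in the case of
eight bad fibres the lattice of the points is the dual of the root lattice `D₄`, and the order of its group of
automorphisms has only these prime divisors; the forms stay irreducible). By the theorems of Artin, Tate and Milne
the Tate conjecture for divisors holds for `X_v` over `κ` at all primes different from the characteristic, and the
space of Tate classes has the dimension `2 + ∑ (m_w - 1) + rank E₀`, the same as the rank of the group of divisors
on `X` over `k` modulo algebraic equivalence, since the rank of `E₀` does not change under good reduction. The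
specialisation map on the second cohomology is injective. So the Tate conjecture for divisors on `X` holds over `k`
at ALL primes.

The proof. In case (2) each form has a Galois group whose order is divisible by `n`, and a `n`-Sylow subgroup of the
Galois group of the compositum is not the union of the at most nine proper subgroups which act trivially on the roots
of one of the forms; so there is an automorphism `σ` as in (1). By Chebotarev's theorem `σ` is a Frobenius element at
a set of primes of positive density, at which the forms stay irreducible (or powers). Over `κ` the Selmer groups of
the two isogenies are generated by points which come from `E₀`.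
-/

set_option autoImplicit false

namespace Pool.Agent.Results.MP_1bad5e_ag.OrderTwoAllPrimes

open Polynomial NumberField Filter IsDedekindDomain Pool.Agent.J4H46.TP Pool.Agent.J4H46.TQ
  Pool.Agent.W401.Cheb

/-- The lower density of the set of primes of `k` is positive. -/
def PosDensity {k : Type} [Field k] [NumberField k] (P : HeightOneSpectrum (𝓞 k) → Prop) : Prop :=
  ∃ δ : ℝ, 0 < δ ∧ ∀ᶠ N : ℕ in atTop, δ ≤ dens P N

/-- The number of the nonzero roots of `g` is smaller than `p`, and they are not `p`-th powers. -/
def NonPowers {k : Type} [Field k] [NumberField k] (p : ℕ) (g : (𝓞 k)[X]) : Prop :=
  (∃ Z : Finset k, Z.card < p ∧ ∀ ξ : k, (g.map (algebraMap (𝓞 k) k)).IsRoot ξ → ξ ≠ 0 → ξ ∈ Z) ∧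
  ∀ ξ : k, (g.map (algebraMap (𝓞 k) k)).IsRoot ξ → ξ ≠ 0 → ∀ y : k, y ^ p ≠ ξ

open scoped Classical in
theorem result :
    -- the criterion
    (∀ (k : Type) [Field k] [NumberField k] (n : ℕ) (a b q r : (𝓞 k)[X]), BaseQ a b →
      MapDeg n q r → Nat.Coprime n 6 →
      (∃ σ : AlgebraicClosure k ≃ₐ[k] AlgebraicClosure k, ∀ f, FormQ a b q r f → OneAt σ n f) →
      PosDensity (GoodQ n a b q r)) ∧
    -- maps of prime degree
    (∀ (k : Type) [Field k] [NumberField k] (n : ℕ) (a b q r : (𝓞 k)[X]), BaseQ a b →
      MapDeg n q r → n.Prime → 11 ≤ n → (∀ f, FormQ a b q r f → InertOrTotal n f) →
      PosDensity (GoodQ n a b q r)) ∧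
    -- towers
    (∀ (k : Type) [Field k] [NumberField k] (p : ℕ) (a b : (𝓞 k)[X]), BaseQ a b →
      p.Prime → 5 ≤ p → NonPowers p (b * (a ^ 2 - 4 * b)) →
      PosDensity (fun v => ∀ j : ℕ, GoodQ (p ^ j) a b (X ^ (p ^ j)) 1 v)) ∧
    -- an example
    (∀ p : ℕ, p.Prime → 7 ≤ p →
      PosDensity (k := ℚ) (fun v => ∀ j : ℕ, GoodQ (p ^ j) (2 * (X ^ 2 + 3 * X - 6))
        (-(2 * (X + 6) * (X - 3))) (X ^ (p ^ j)) 1 v)) := by
  refine ⟨fun k _ _ n a b q r hB hM h6 ⟨σ, hσ⟩ => critQ hB hM h6 hσ,
    fun k _ _ n a b q r hB hM hp h7 h => primeQ hB hM hp h7 h, ?_, fun p hp h5 => exaQ hp h5⟩
  rintro k _ _ p a b hB hp h5 ⟨⟨Z, hZ, hZr⟩, h⟩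
  refine towerQ hB hp h5 ?_ h
  refine lt_of_le_of_lt (Finset.card_le_card fun ξ hξ => ?_) hZ
  rw [Finset.mem_erase, Multiset.mem_toFinset, mem_roots'] at hξ
  exact hZr ξ hξ.2.2 hξ.1

end Pool.Agent.Results.MP_1bad5e_ag.OrderTwoAllPrimes
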